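import Mathlib

/-!
# MP_41928e_lc: an edge-interdiction path game without Markovian equilibrium

The graph has the layers `{s}`, `{a₀, a₁, a₂}`, `{b₀, b₁, b₂}`, `{c₀, c₁, c₂}`, `{t}` and six paths,
`A = a₀b₀c₀`, `B = a₀b₀c₂`, `C = a₁b₀c₀`, `D = a₁b₀c₂`, `E = a₁b₁c₁`, `F = a₂b₂c₀`. The paths `B`, `E`,
`F` are pairwise edge-disjoint, and `A`, `C`, `D` meet exactly two of them each. The only equilibrium
strategy of the defender is `1/3` on each of `A`, `C`, `D`; it is not Markovian.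
-/

namespace Pool.Agent.Results.MP_41928e_lc.NoMarkovian

open Finset

/-- A layered graph with the layers `V^1, …, V^(n+1)` (`layer v = i` means `v ∈ V^(i+1)`), `n ≥ 1`, all
of them non-empty, the first one being `{s}`, and edges from layers to the next one. -/
structure LayeredGraph where
  V : Type
  [fin : Fintype V]
  [dec : DecidableEq V]
  n : ℕ
  one_le : 1 ≤ n
  layer : V → Fin (n + 1)
  surj : Function.Surjective layer
  s : V
  source : ∀ v, layer v = 0 ↔ v = s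
  E : V → V → Prop
  [decE : DecidableRel E]
  edge : ∀ v w, E v w → (layer w : ℕ) = layer v + 1

attribute [instance] LayeredGraph.fin LayeredGraph.dec LayeredGraph.decE

namespace LayeredGraph

variable (G : LayeredGraph)

/-- The directed paths from `s` to a vertex of the last layer, given by their vertices. -/
def Path : Type := {p : Fin (G.n + 1) → G.V // p 0 = G.s ∧ ∀ i : Fin G.n, G.E (p i.castSucc) (p i.succ)}

noncomputable instance : Fintype G.Path :=
  inferInstanceAs (Fintype {p : Fin (G.n + 1) → G.V // p 0 = G.s ∧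
    ∀ i : Fin G.n, G.E (p i.castSucc) (p i.succ)})

/-- The two paths have an edge in common. -/
def Meet (p q : G.Path) : Prop :=
  ∃ i j : Fin G.n, p.1 i.castSucc = q.1 j.castSucc ∧ p.1 i.succ = q.1 j.succ

open Classical in
/-- the payoff of the attacker: `1` if the two paths have no edge in common, and `0` otherwise -/
noncomputable def u (p q : G.Path) : ℝ := if G.Meet p q then 0 else 1

/-- `x` is a mixed strategy: a probability distribution on the paths. -/
def Mixed (x : G.Path → ℝ) : Prop := (∀ p, 0 ≤ x p) ∧ ∑ p, x p = 1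

/-- the expected payoff of the attacker; the defender plays `x`, the attacker plays `y` -/
noncomputable def payoff (x y : G.Path → ℝ) : ℝ := ∑ p, ∑ q, x p * y q * G.u p q

/-- `(x, y)` is a Nash equilibrium (`x`: defender, `y`: attacker). -/
def IsNash (x y : G.Path → ℝ) : Prop :=
  G.Mixed x ∧ G.Mixed y ∧ (∀ y', G.Mixed y' → G.payoff x y' ≤ G.payoff x y) ∧
    ∀ x', G.Mixed x' → G.payoff x y ≤ G.payoff x' y

/-- `x` is Markovian: there are transition probabilities `q v w` on the edges, summing to `1` over the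
out-edges of `v` whenever `v` has out-edges and is reached, such that `x p` is the product of the
transition probabilities of the edges of `p`. -/
def Markovian (x : G.Path → ℝ) : Prop :=
  ∃ q : G.V → G.V → ℝ, (∀ v w, 0 ≤ q v w) ∧
    (∀ v, (∃ p : G.Path, 0 < x p ∧ ∃ i, p.1 i = v) → (∃ w, G.E v w) →
      ∑ w ∈ univ.filter (fun w => G.E v w), q v w = 1) ∧
    ∀ p : G.Path, x p = ∏ i : Fin G.n, q (p.1 i.castSucc) (p.1 i.succ)

end LayeredGraph

/-- the edges -/
def edges : List (Fin 11 × Fin 11) :=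
  [(0, 1), (0, 2), (0, 3), (1, 4), (2, 4), (2, 5), (3, 6), (4, 7), (4, 9), (5, 8), (6, 7),
    (7, 10), (8, 10), (9, 10)]

/-- the layers -/
def lay : Fin 11 → Fin 5 := ![0, 1, 1, 1, 2, 2, 2, 3, 3, 3, 4]

/-- the graph: `s = 0`, `a_i = 1 + i`, `b_i = 4 + i`, `c_i = 7 + i`, `t = 10` -/
def G₀ : LayeredGraph where
  V := Fin 11
  n := 4
  one_le := by norm_num
  layer := lay
  surj := by decide
  s := 0
  source := by decide
  E := fun v w => (v, w) ∈ edges
  edge := by decide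

/-- the vertices of the six paths `A, B, C, D, E, F` -/
def pv : Fin 6 → Fin 5 → Fin 11 :=
  ![![0, 1, 4, 7, 10], ![0, 1, 4, 9, 10], ![0, 2, 4, 7, 10], ![0, 2, 4, 9, 10],
    ![0, 2, 5, 8, 10], ![0, 3, 6, 7, 10]]

theorem pv_path : ∀ k, pv k 0 = 0 ∧ ∀ i : Fin 4, (pv k i.castSucc, pv k i.succ) ∈ edges := by
  decide

/-- the six paths -/
def P (k : Fin 6) : G₀.Path := ⟨pv k, pv_path k⟩

theorem pv_inj : ∀ k l, pv k = pv l → k = l := by decide

theorem P_inj : Function.Injective P := fun k l h => pv_inj k l (congrArg Subtype.val h)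

/-- the out-neighbours -/
def outs : Fin 11 → List (Fin 11) :=
  ![[1, 2, 3], [4], [4, 5], [6], [7, 9], [8], [7], [10], [10], [10], []]

theorem mem_outs : ∀ v w : Fin 11, (v, w) ∈ edges → w ∈ outs v := by decide

theorem outs_paths : ∀ v1 ∈ outs 0, ∀ v2 ∈ outs v1, ∀ v3 ∈ outs v2, ∀ v4 ∈ outs v3,
    ∃ k, pv k = ![0, v1, v2, v3, v4] := by decide

theorem all_paths (v1 v2 v3 v4 : Fin 11) (h1 : (0, v1) ∈ edges) (h2 : (v1, v2) ∈ edges)
    (h3 : (v2, v3) ∈ edges) (h4 : (v3, v4) ∈ edges) : ∃ k, pv k = ![0, v1, v2, v3, v4] :=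
  outs_paths v1 (mem_outs _ _ h1) v2 (mem_outs _ _ h2) v3 (mem_outs _ _ h3) v4 (mem_outs _ _ h4)

theorem P_surj : Function.Surjective P := by
  rintro ⟨p, h0, hE⟩
  have h0' : p (0 : Fin 5) = (0 : Fin 11) := h0
  have h1 : ((0 : Fin 11), p (1 : Fin 5)) ∈ edges := by
    rw [← h0']; exact hE (0 : Fin 4)
  have h2 : (p (1 : Fin 5), p (2 : Fin 5)) ∈ edges := hE (1 : Fin 4)
  have h3 : (p (2 : Fin 5), p (3 : Fin 5)) ∈ edges := hE (2 : Fin 4)
  have h4 : (p (3 : Fin 5), p (4 : Fin 5)) ∈ edges := hE (3 : Fin 4)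
  obtain ⟨k, hk⟩ := all_paths _ _ _ _ h1 h2 h3 h4
  refine ⟨k, Subtype.ext ?_⟩
  show pv k = p
  rw [hk]
  funext i
  fin_cases i
  · exact h0'.symm
  · rfl
  · rfl
  · rfl
  · rfl

/-- the six paths -/
noncomputable def eP : Fin 6 ≃ G₀.Path := Equiv.ofBijective P ⟨P_inj, P_surj⟩

theorem sum_path (f : G₀.Path → ℝ) :
    ∑ p, f p = f (P 0) + f (P 1) + f (P 2) + f (P 3) + f (P 4) + f (P 5) := by
  rw [← eP.sum_comp, Fin.sum_univ_six]
  rfl

/-- which paths meet -/
def mt (k l : Fin 6) : Bool :=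
  decide (∃ i j : Fin 4, pv k i.castSucc = pv l j.castSucc ∧ pv k i.succ = pv l j.succ)

theorem u_eq (k l : Fin 6) : G₀.u (P k) (P l) = if mt k l = true then 0 else 1 := by
  unfold LayeredGraph.u mt
  have : G₀.Meet (P k) (P l) ↔ ∃ i j : Fin 4, pv k i.castSucc = pv l j.castSucc ∧
      pv k i.succ = pv l j.succ := Iff.rfl
  simp only [this, decide_eq_true_eq]

/-- the matrix of the game: rows for the defender -/
def tbl : Fin 6 → Fin 6 → Bool :=
  ![![true, true, true, false, false, true], ![true, true, false, true, false, false],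
    ![true, false, true, true, true, true], ![false, true, true, true, true, false],
    ![false, false, true, true, true, false], ![true, false, true, false, false, true]]

theorem mt_eq : ∀ k l, mt k l = tbl k l := by decide

/-- payoff against a path of the attacker -/
theorem payoff_eq (x y : G₀.Path → ℝ) : G₀.payoff x y =
    x (P 0) * (y (P 3) + y (P 4)) +
    x (P 1) * (y (P 2) + y (P 4) + y (P 5)) +
    x (P 2) * (y (P 1)) +
    x (P 3) * (y (P 0) + y (P 5)) +
    x (P 4) * (y (P 0) + y (P 1) + y (P 5)) +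
    x (P 5) * (y (P 1) + y (P 3) + y (P 4)) := by
  unfold LayeredGraph.payoff
  simp only [sum_path, u_eq, mt_eq]
  simp [tbl]
  ring

/-- strategies given by their values at the six paths -/
noncomputable def st (c : Fin 6 → ℝ) : G₀.Path → ℝ := fun p => c (eP.symm p)

theorem st_P (c : Fin 6 → ℝ) (k : Fin 6) : st c (P k) = c k := by
  unfold st
  rw [show P k = eP k from rfl, Equiv.symm_apply_apply]

theorem mixed_st (c : Fin 6 → ℝ) (h0 : ∀ k, 0 ≤ c k) (h1 : ∑ k, c k = 1) : G₀.Mixed (st c) := by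
  refine ⟨fun p => h0 _, ?_⟩
  rw [← eP.sum_comp]
  simpa [st] using h1

/-- the equilibrium strategy of the defender -/
noncomputable def xs : Fin 6 → ℝ := ![1 / 3, 0, 1 / 3, 1 / 3, 0, 0]
/-- an equilibrium strategy of the attacker -/
noncomputable def ys : Fin 6 → ℝ := ![0, 1 / 3, 0, 0, 1 / 3, 1 / 3]

theorem xs_vals : xs 0 = 1 / 3 ∧ xs 1 = 0 ∧ xs 2 = 1 / 3 ∧ xs 3 = 1 / 3 ∧ xs 4 = 0 ∧ xs 5 = 0 :=
  ⟨rfl, rfl, rfl, rfl, rfl, rfl⟩
theorem ys_vals : ys 0 = 0 ∧ ys 1 = 1 / 3 ∧ ys 2 = 0 ∧ ys 3 = 0 ∧ ys 4 = 1 / 3 ∧ ys 5 = 1 / 3 :=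
  ⟨rfl, rfl, rfl, rfl, rfl, rfl⟩

theorem forall_six {p : Fin 6 → Prop} (h0 : p 0) (h1 : p 1) (h2 : p 2) (h3 : p 3) (h4 : p 4)
    (h5 : p 5) : ∀ k, p k := by
  intro k
  fin_cases k
  · exact h0
  · exact h1
  · exact h2
  · exact h3
  · exact h4
  · exact h5

theorem mixed_xs : G₀.Mixed (st xs) := by
  obtain ⟨e0, e1, e2, e3, e4, e5⟩ := xs_vals
  refine mixed_st _ (forall_six ?_ ?_ ?_ ?_ ?_ ?_) ?_
  · rw [e0]; norm_num
  · rw [e1]
  · rw [e2]; norm_num
  · rw [e3]; norm_num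
  · rw [e4]
  · rw [e5]
  · rw [Fin.sum_univ_six, e0, e1, e2, e3, e4, e5]; norm_num

theorem mixed_ys : G₀.Mixed (st ys) := by
  obtain ⟨e0, e1, e2, e3, e4, e5⟩ := ys_vals
  refine mixed_st _ (forall_six ?_ ?_ ?_ ?_ ?_ ?_) ?_
  · rw [e0]
  · rw [e1]; norm_num
  · rw [e2]
  · rw [e3]
  · rw [e4]; norm_num
  · rw [e5]; norm_num
  · rw [Fin.sum_univ_six, e0, e1, e2, e3, e4, e5]; norm_num

theorem payoff_xs (y : G₀.Path → ℝ) (hy : G₀.Mixed y) : G₀.payoff (st xs) y ≤ 1 / 3 := by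
  obtain ⟨h0, h1⟩ := hy
  rw [sum_path] at h1
  rw [payoff_eq]
  simp only [st_P]
  have := h0 (P 0); have := h0 (P 1); have := h0 (P 2); have := h0 (P 3); have := h0 (P 4)
  have := h0 (P 5)
  obtain ⟨e0, e1, e2, e3, e4, e5⟩ := xs_vals
  rw [e0, e1, e2, e3, e4, e5]
  linarith

theorem payoff_ys (x : G₀.Path → ℝ) (hx : G₀.Mixed x) : 1 / 3 ≤ G₀.payoff x (st ys) := by
  obtain ⟨h0, h1⟩ := hx
  rw [sum_path] at h1
  rw [payoff_eq]
  simp only [st_P]
  have := h0 (P 0); have := h0 (P 1); have := h0 (P 2); have := h0 (P 3); have := h0 (P 4)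
  have := h0 (P 5)
  obtain ⟨e0, e1, e2, e3, e4, e5⟩ := ys_vals
  rw [e0, e1, e2, e3, e4, e5]
  linarith

theorem nash_exists : G₀.IsNash (st xs) (st ys) := by
  have h1 := payoff_xs _ mixed_ys
  have h2 := payoff_ys _ mixed_xs
  exact ⟨mixed_xs, mixed_ys, fun y hy => (payoff_xs y hy).trans h2,
    fun x hx => h1.trans (payoff_ys x hx)⟩

/-- pure strategies of the attacker -/
theorem mixed_pure (k : Fin 6) : G₀.Mixed (st (Pi.single k 1)) := by
  refine mixed_st _ (fun l => ?_) ?_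
  · by_cases h : l = k
    · subst h; simp
    · simp [Pi.single_eq_of_ne h]
  · simp

theorem not_markovian (x y : G₀.Path → ℝ) (h : G₀.IsNash x y) : ¬ G₀.Markovian x := by
  obtain ⟨hx, hy, h1, h2⟩ := h
  have hv : G₀.payoff x y ≤ 1 / 3 := (h2 _ mixed_xs).trans (payoff_xs y hy)
  have hB := (h1 _ (mixed_pure 1)).trans hv
  have hE := (h1 _ (mixed_pure 4)).trans hv
  have hF := (h1 _ (mixed_pure 5)).trans hv
  obtain ⟨h0, hs⟩ := hx
  rw [sum_path] at hs
  rw [payoff_eq] at hB hE hF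
  simp only [st_P] at hB hE hF
  simp at hB hE hF
  have g0 := h0 (P 0); have g1 := h0 (P 1); have g2 := h0 (P 2); have g3 := h0 (P 3)
  have g4 := h0 (P 4); have g5 := h0 (P 5)
  have e1 : x (P 1) = 0 := by linarith
  have e0 : 0 < x (P 0) := by linarith
  have e3 : 0 < x (P 3) := by linarith
  rintro ⟨q, hq0, -, hq⟩
  obtain ⟨q', hq'⟩ : ∃ q' : Fin 11 → Fin 11 → ℝ, q' = q := ⟨q, rfl⟩
  have p0 : x (P 0) = q' 0 1 * q' 1 4 * q' 4 7 * q' 7 10 := by
    rw [hq, hq']; exact Fin.prod_univ_four _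
  have p1 : x (P 1) = q' 0 1 * q' 1 4 * q' 4 9 * q' 9 10 := by
    rw [hq, hq']; exact Fin.prod_univ_four _
  have p3 : x (P 3) = q' 0 2 * q' 2 4 * q' 4 9 * q' 9 10 := by
    rw [hq, hq']; exact Fin.prod_univ_four _
  rw [p0] at e0
  rw [p3] at e3
  rw [p1] at e1
  have a1 : q' 0 1 ≠ 0 := by rintro h; rw [h] at e0; simp at e0
  have a2 : q' 1 4 ≠ 0 := by rintro h; rw [h] at e0; simp at e0
  have a3 : q' 4 9 ≠ 0 := by rintro h; rw [h] at e3; simp at e3
  have a4 : q' 9 10 ≠ 0 := by rintro h; rw [h] at e3; simp at e3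
  exact mul_ne_zero (mul_ne_zero (mul_ne_zero a1 a2) a3) a4 e1

/-- There is a layered graph for which the game (both players choose paths, the attacker receives `1`
exactly when the two paths have no edge in common) has a Nash equilibrium, but in every Nash
equilibrium the strategy of the defender is not Markovian. -/
theorem result : ∃ G : LayeredGraph, (∃ x y, G.IsNash x y) ∧
    ∀ x y, G.IsNash x y → ¬ G.Markovian x :=
  ⟨G₀, ⟨_, _, nash_exists⟩, not_markovian⟩

end Pool.Agent.Results.MP_41928e_lc.NoMarkovian
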